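import Mathlib

/-!
# Statements for MP_14431a_gt (weights of omega-bounded abelian groups)
-/

set_option autoImplicit false

open Cardinal Topology TopologicalSpace Set Filter

namespace Pool.Agent.N841.WS

/-- the closures of the countable sets are compact -/
def OmegaBounded (G : Type) [TopologicalSpace G] : Prop :=
  ∀ S : Set G, S.Countable → IsCompact (closure S)

/-- the weight: the least cardinality of a base -/
noncomputable def weight (X : Type) [TopologicalSpace X] : Cardinal.{0} :=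
  sInf {κ | ∃ B : Set (Set X), IsTopologicalBasis B ∧ #B = κ}

/-- every Hausdorff group which is a continuous homomorphic image of `G` is weight-small -/
def ProjWeightSmall (G : Type) [AddCommGroup G] [TopologicalSpace G] : Prop :=
  ∀ (H : Type) [AddCommGroup H] [TopologicalSpace H] [IsTopologicalAddGroup H] [T2Space H]
    (f : G →+ H), Continuous f → Function.Surjective f → weight H ≤ #H

/-- the weights of the omega-bounded abelian groups which are not projectively weight-small -/
def BadWeights : Set Cardinal.{0} :=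
  {κ | ∃ (G : Type) (_ : AddCommGroup G) (_ : TopologicalSpace G) (_ : IsTopologicalAddGroup G)
    (_ : T2Space G), OmegaBounded G ∧ weight G = κ ∧ ¬ ProjWeightSmall G}

/-- the cardinal `σ` of the problem -/
noncomputable def sigma : Cardinal.{0} := sInf BadWeights

/-- the traces of the family `𝒜` on the set `S` -/
def traces {X : Type} (𝒜 : Set (Set X)) (S : Set X) : Set (Set X) := {T | ∃ A ∈ 𝒜, T = A ∩ S}

/-- more than `𝔠` sets of real numbers with few traces on every countable set -/
def KurepaFamily : Prop :=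
  ∃ 𝒜 : Set (Set (ℕ → Bool)), 𝔠 < #𝒜 ∧
    ∀ S : Set (ℕ → Bool), S.Countable → 2 ^ #(traces 𝒜 S) ≤ 𝔠

/-- the continuous characters -/
def Ch (G : Type) [AddCommGroup G] [TopologicalSpace G] : Type :=
  {χ : G → Circle // Continuous χ ∧ ∀ x y, χ (x + y) = χ x * χ y}

/-- totally bounded groups -/
def TBd (G : Type) [AddCommGroup G] [TopologicalSpace G] : Prop :=
  ∀ U ∈ 𝓝 (0 : G), ∃ F : Finset G, ∀ g : G, ∃ x ∈ F, g - x ∈ U

/-- compact abelian groups have enough characters -/
def S_PW : Prop :=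
  ∀ (G : Type) [AddCommGroup G] [TopologicalSpace G] [IsTopologicalAddGroup G] [CompactSpace G]
    [T2Space G] (x : G), x ≠ 0 → ∃ χ : Ch G, χ.1 x ≠ 1

/-- omega-bounded groups are totally bounded -/
def S_TB : Prop :=
  ∀ (G : Type) [AddCommGroup G] [TopologicalSpace G] [IsTopologicalAddGroup G],
    OmegaBounded G → TBd G

/-- the topology of a totally bounded Hausdorff group is given by the characters -/
def S_NB : Prop :=
  ∀ (G : Type) [AddCommGroup G] [TopologicalSpace G] [IsTopologicalAddGroup G] [T2Space G],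
    TBd G → ∀ U ∈ 𝓝 (0 : G), ∃ F : Finset (Ch G), ∃ ε : ℝ, 0 < ε ∧
      ∀ x : G, (∀ χ ∈ F, dist (χ.1 x) 1 < ε) → x ∈ U

/-- the weight is at most the number of characters, if the topology is given by the characters -/
def S_WU : Prop :=
  ∀ (G : Type) [AddCommGroup G] [TopologicalSpace G] [IsTopologicalAddGroup G] (Y : Set (Ch G)),
    (∀ U ∈ 𝓝 (0 : G), ∃ F : Finset (Ch G), (∀ χ ∈ F, χ ∈ Y) ∧ ∃ ε : ℝ, 0 < ε ∧
      ∀ x : G, (∀ χ ∈ F, dist (χ.1 x) 1 < ε) → x ∈ U) →
    weight G ≤ max #Y ℵ₀

/-- the number of the characters is at most the weight -/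
def S_WL : Prop :=
  ∀ (G : Type) [AddCommGroup G] [TopologicalSpace G] [IsTopologicalAddGroup G],
    TBd G → #(Ch G) ≤ max (weight G) ℵ₀

/-- a separating set of characters of a compact group gives the topology -/
def S_SEP : Prop :=
  ∀ (G : Type) [AddCommGroup G] [TopologicalSpace G] [IsTopologicalAddGroup G] [CompactSpace G]
    [T2Space G] (Y : Set (Ch G)), (∀ x : G, x ≠ 0 → ∃ χ ∈ Y, χ.1 x ≠ 1) →
    ∀ U ∈ 𝓝 (0 : G), ∃ F : Finset (Ch G), (∀ χ ∈ F, χ ∈ Y) ∧ ∃ ε : ℝ, 0 < ε ∧
      ∀ x : G, (∀ χ ∈ F, dist (χ.1 x) 1 < ε) → x ∈ U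

/-- a compact abelian group with uncountably many characters has many elements -/
def S_TREE : Prop :=
  ∀ (C : Type) [AddCommGroup C] [TopologicalSpace C] [IsTopologicalAddGroup C] [CompactSpace C]
    [T2Space C],
    (∀ x : C, x ≠ 0 → ∃ χ : Ch C, χ.1 x ≠ 1) →
    (∀ Y : Set (Ch C), (∀ x : C, x ≠ 0 → ∃ χ ∈ Y, χ.1 x ≠ 1) → #(Ch C) ≤ max #Y ℵ₀) →
    ℵ₀ < #(Ch C) → 2 ^ #(Ch C) ≤ #C

/-- an infinite omega-bounded Hausdorff abelian group has at least `𝔠` elements -/
def S_INF : Prop :=
  ∀ (G : Type) [AddCommGroup G] [TopologicalSpace G] [IsTopologicalAddGroup G] [T2Space G],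
    OmegaBounded G → Infinite G → 𝔠 ≤ #G

/-- the group of a family of sets -/
def S_KUR : Prop :=
  ∀ (X : Type) (𝒜 : Set (Set X)) (lam : Cardinal.{0}), 𝔠 ≤ lam → #X ^ ℵ₀ ≤ lam →
    (∀ S : Set X, S.Countable → 2 ^ #(traces 𝒜 S) ≤ lam) → lam < #𝒜 →
    ∃ (H : Type) (_ : AddCommGroup H) (_ : TopologicalSpace H) (_ : IsTopologicalAddGroup H)
      (_ : T2Space H), OmegaBounded H ∧ #H ≤ lam ∧ weight H = #𝒜

/-- many functions with few restrictions to countable sets give a family of sets -/
def S_FAM : Prop :=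
  ∀ (H : Type) (Φ : Set (H → Circle)), #H ≤ 𝔠 → 𝔠 < #Φ →
    (∀ S : Set H, S.Countable → 2 ^ #(Set.range fun φ : Φ => fun s : S => φ.1 s.1) ≤ 𝔠) →
    KurepaFamily

/-- countable subsets of omega-bounded groups lie in compact subgroups -/
def S_CLO : Prop :=
  ∀ (G : Type) [AddCommGroup G] [TopologicalSpace G] [IsTopologicalAddGroup G],
    OmegaBounded G → ∀ S : Set G, S.Countable →
      ∃ C : AddSubgroup G, S ⊆ (C : Set G) ∧ IsCompact (C : Set G)

/-- continuous homomorphic images of omega-bounded groups are omega-bounded -/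
def S_IMG : Prop :=
  ∀ (G H : Type) [TopologicalSpace G] [TopologicalSpace H] [T2Space H] (f : G → H),
    Continuous f → Function.Surjective f → OmegaBounded G → OmegaBounded H

end Pool.Agent.N841.WS
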