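import Pool.Agent.H481R3.CGB
import Pool.Agent.N841.WS.Stm

set_option autoImplicit false

open Cardinal Topology TopologicalSpace Set Filter

namespace Pool.Agent.N841.WS

theorem t_PW : S_PW := by
  intro G _ _ _ _ _ x hx
  letI : MeasurableSpace (Multiplicative G) := borel _
  haveI : BorelSpace (Multiplicative G) := ⟨rfl⟩
  haveI : T2Space (Multiplicative G) := inferInstanceAs (T2Space G)
  haveI : CompactSpace (Multiplicative G) := inferInstanceAs (CompactSpace G)
  let K : PositiveCompacts (Multiplicative G) := ⊤
  let μ : MeasureTheory.Measure (Multiplicative G) := MeasureTheory.Measure.haarMeasure K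
  haveI : MeasureTheory.IsProbabilityMeasure μ := ⟨by
    have := MeasureTheory.Measure.haarMeasure_self (K₀ := K)
    simpa [K, μ] using this⟩
  obtain ⟨χ, hc, h⟩ := Pool.Agent.H481R3.CG.exists_char μ
    (Multiplicative.ofAdd x) (Multiplicative.ofAdd (0 : G)) (by
      intro h
      exact hx (Multiplicative.ofAdd.injective h))
  refine ⟨⟨fun g => χ (Multiplicative.ofAdd g), hc.comp continuous_ofAdd, ?_⟩, ?_⟩
  · intro x y
    change χ (Multiplicative.ofAdd (x + y)) = _
    rw [ofAdd_add, map_mul]
  · intro h1
    apply h
    rw [ofAdd_zero, map_one]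
    exact h1

theorem t_IMG : S_IMG := by
  intro G H _ _ _ f hf hs hG S hS
  obtain ⟨D, hD, hDS⟩ : ∃ D : Set G, D.Countable ∧ f '' D = S := by
    choose g hg using hs
    refine ⟨g '' S, hS.image g, ?_⟩
    rw [image_image]
    simp [hg]
  have hc : IsCompact (f '' closure D) := (hG D hD).image hf
  have hsub : closure S ⊆ f '' closure D := by
    rw [← hDS]
    exact closure_minimal (image_mono subset_closure) hc.isClosed
  exact hc.of_isClosed_subset isClosed_closure hsub

theorem t_CLO : S_CLO := by
  intro G _ _ _ hG S hS
  have hcount : ((AddSubgroup.closure S : AddSubgroup G) : Set G).Countable := by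
    haveI : Countable S := hS.to_subtype
    have h1 : ((AddSubgroup.closure S : AddSubgroup G) : Set G) =
        Set.range (Finsupp.linearCombination ℤ (Subtype.val : S → G)) := by
      have h2 := Finsupp.range_linearCombination ℤ (v := (Subtype.val : S → G))
      rw [Subtype.range_coe] at h2
      have h3 : (AddSubgroup.closure S : Set G) = (Submodule.span ℤ S : Set G) := by
        rw [← Submodule.span_int_eq_addSubgroupClosure]
        rfl
      rw [h3, ← h2]
      rfl
    rw [h1]
    exact Set.countable_range _
  refine ⟨(AddSubgroup.closure S).topologicalClosure, ?_, ?_⟩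
  · exact AddSubgroup.subset_closure.trans (AddSubgroup.le_topologicalClosure _)
  · rw [AddSubgroup.topologicalClosure_coe]
    exact hG _ hcount

end Pool.Agent.N841.WS
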