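import Pool.Agent.N841.WS.Stm
import Pool.Agent.N841.WS.Small

set_option autoImplicit false

open Cardinal Topology TopologicalSpace Set Filter

namespace Pool.Agent.N841.WS

theorem weight_le_of_basis {X : Type} [TopologicalSpace X] {B : Set (Set X)}
    (h : IsTopologicalBasis B) : weight X ≤ #B :=
  csInf_le' ⟨B, h, rfl⟩

theorem weight_le_of_finite (H : Type) [TopologicalSpace H] [T2Space H] [Finite H] :
    weight H ≤ #H := by
  haveI : DiscreteTopology H := inferInstance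
  refine (weight_le_of_basis (isTopologicalBasis_singletons H)).trans ?_
  have : {s : Set H | ∃ x, s = {x}} = Set.range (fun x : H => ({x} : Set H)) := by
    ext s
    simp [eq_comm]
  rw [this]
  exact mk_range_le

/-- compact groups are omega-bounded -/
theorem omegaBounded_of_compact (C : Type) [TopologicalSpace C] [CompactSpace C] :
    OmegaBounded C := fun _ _ => isClosed_closure.isCompact

theorem ch_pull {G H : Type} [AddCommGroup G] [TopologicalSpace G] [AddCommGroup H]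
    [TopologicalSpace H] (f : G →+ H) (hf : Continuous f) (hs : Function.Surjective f) :
    #(Ch H) ≤ #(Ch G) := by
  refine mk_le_of_injective (f := fun χ : Ch H =>
    (⟨fun g => χ.1 (f g), χ.2.1.comp hf, fun x y => by
      change χ.1 (f (x + y)) = χ.1 (f x) * χ.1 (f y)
      rw [map_add, χ.2.2]⟩ : Ch G)) ?_
  intro χ ψ h
  apply Subtype.ext
  funext y
  obtain ⟨x, rfl⟩ := hs y
  exact congrFun (congrArg Subtype.val h) x

theorem weight_le_ch (hTB : S_TB) (hNB : S_NB) (hWU : S_WU)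
    (G : Type) [AddCommGroup G] [TopologicalSpace G] [IsTopologicalAddGroup G] [T2Space G]
    (hG : OmegaBounded G) : weight G ≤ max #(Ch G) ℵ₀ := by
  have h1 := hTB G hG
  have h2 := hWU G (Set.univ) (by
    intro U hU
    obtain ⟨F, ε, hε, h⟩ := hNB G h1 U hU
    exact ⟨F, fun _ _ => mem_univ _, ε, hε, h⟩)
  rwa [mk_univ] at h2

theorem ch_le_weight (hTB : S_TB) (hWL : S_WL)
    (G : Type) [AddCommGroup G] [TopologicalSpace G] [IsTopologicalAddGroup G]
    (hG : OmegaBounded G) : #(Ch G) ≤ max (weight G) ℵ₀ :=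
  hWL G (hTB G hG)

theorem weight_image_le (hTB : S_TB) (hNB : S_NB) (hWU : S_WU) (hWL : S_WL)
    {G H : Type} [AddCommGroup G] [TopologicalSpace G] [IsTopologicalAddGroup G]
    [AddCommGroup H] [TopologicalSpace H] [IsTopologicalAddGroup H] [T2Space H]
    (hG : OmegaBounded G) (f : G →+ H) (hf : Continuous f) (hs : Function.Surjective f) :
    weight H ≤ max (weight G) ℵ₀ := by
  have h1 := weight_le_ch hTB hNB hWU H (t_IMG G H f hf hs hG)
  refine h1.trans (max_le ?_ (le_max_right _ _))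
  exact (ch_pull f hf hs).trans (ch_le_weight hTB hWL G hG)

theorem lower (hTB : S_TB) (hNB : S_NB) (hWU : S_WU) (hWL : S_WL) (hINF : S_INF)
    (κ : Cardinal.{0}) (hκ : κ ∈ BadWeights) : 𝔠 < κ := by
  obtain ⟨G, _, _, _, _, hG, rfl, hbad⟩ := hκ
  by_contra hle
  push Not at hle
  apply hbad
  intro H _ _ _ _ f hf hs
  have hH := t_IMG G H f hf hs hG
  rcases finite_or_infinite H with h | h
  · exact weight_le_of_finite H
  · have h1 := hINF H hH h
    have h2 := weight_image_le hTB hNB hWU hWL hG f hf hs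
    exact h2.trans ((max_le hle aleph0_le_continuum).trans h1)

theorem bad_of_family (hKUR : S_KUR) (X : Type) (𝒜 : Set (Set X)) (lam : Cardinal.{0})
    (h1 : 𝔠 ≤ lam) (h2 : #X ^ ℵ₀ ≤ lam)
    (h3 : ∀ S : Set X, S.Countable → 2 ^ #(traces 𝒜 S) ≤ lam) (h4 : lam < #𝒜) :
    #𝒜 ∈ BadWeights := by
  obtain ⟨H, i1, i2, i3, i4, hH, hc, hw⟩ := hKUR X 𝒜 lam h1 h2 h3 h4
  refine ⟨H, i1, i2, i3, i4, hH, hw, ?_⟩
  intro hp
  have := hp H (AddMonoidHom.id H) continuous_id Function.surjective_id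
  rw [hw] at this
  exact absurd (this.trans hc) (not_le.2 h4)

theorem traces_le {X : Type} (𝒜 : Set (Set X)) (S : Set X) : #(traces 𝒜 S) ≤ 2 ^ #S := by
  rw [← mk_set]
  refine mk_le_of_injective (f := fun T : traces 𝒜 S => {s : S | s.1 ∈ T.1}) ?_
  rintro ⟨T, A, hA, rfl⟩ ⟨T', A', hA', rfl⟩ h
  apply Subtype.ext
  ext x
  have h' := Set.ext_iff.1 h
  constructor
  · intro hx
    have := (h' ⟨x, hx.2⟩).1 hx
    exact this
  · intro hx
    have := (h' ⟨x, hx.2⟩).2 hx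
    exact this

theorem traces_mono {X : Type} {𝒜 ℬ : Set (Set X)} (h : 𝒜 ⊆ ℬ) (S : Set X) :
    #(traces 𝒜 S) ≤ #(traces ℬ S) :=
  mk_le_mk_of_subset (by
    rintro T ⟨A, hA, rfl⟩
    exact ⟨A, h hA, rfl⟩)

theorem upper_mem (hKUR : S_KUR) : Order.succ ((2 : Cardinal.{0}) ^ 𝔠) ∈ BadWeights := by
  have hX : #(Set (ℕ → Bool)) = 2 ^ 𝔠 := by
    rw [mk_set]
    simp
  have h0 : Order.succ ((2 : Cardinal.{0}) ^ 𝔠) ≤ #(Set (Set (ℕ → Bool))) := by
    rw [mk_set, hX]
    exact Order.succ_le_of_lt (cantor _)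
  obtain ⟨𝒜, h𝒜⟩ := le_mk_iff_exists_set.1 h0
  have := bad_of_family hKUR (Set (ℕ → Bool)) 𝒜 (2 ^ 𝔠) (cantor _).le
    (by
      rw [hX, ← power_mul, continuum_mul_aleph0]) 
    (by
      intro S hS
      have h1 := traces_le 𝒜 S
      have h2 : (2 : Cardinal.{0}) ^ #S ≤ 𝔠 := by
        rw [← two_power_aleph0]
        exact power_le_power_left two_ne_zero (le_aleph0_iff_set_countable.2 hS)
      exact power_le_power_left two_ne_zero (h1.trans h2))
    (by rw [h𝒜]; exact Order.lt_succ _)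
  rwa [h𝒜] at this

theorem kurepa_mem (hKUR : S_KUR) (hK : KurepaFamily) : Order.succ 𝔠 ∈ BadWeights := by
  obtain ⟨𝒜, h1, h2⟩ := hK
  obtain ⟨ℬ, hℬ⟩ := le_mk_iff_exists_subset.1 (Order.succ_le_of_lt h1)
  have := bad_of_family hKUR (ℕ → Bool) ℬ 𝔠 le_rfl (by simp)
    (by
      intro S hS
      exact (power_le_power_left two_ne_zero (traces_mono hℬ.1 S)).trans (h2 S hS))
    (by rw [hℬ.2]; exact Order.lt_succ _)
  rwa [hℬ.2] at this

theorem kurepa_of (hTREE : S_TREE) (hNB : S_NB) (hWU : S_WU) (hWL : S_WL) (hSEP : S_SEP)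
    (hTB : S_TB) (hINF : S_INF) (hFAM : S_FAM) (hmem : Order.succ 𝔠 ∈ BadWeights) :
    KurepaFamily := by
  obtain ⟨G, _, _, _, _, hG, hw, hbad⟩ := hmem
  unfold ProjWeightSmall at hbad
  push Not at hbad
  obtain ⟨H, _, _, _, _, f, hf, hs, hlt⟩ := hbad
  have hH := t_IMG G H f hf hs hG
  have hinf : Infinite H := by
    by_contra h
    rw [not_infinite_iff_finite] at h
    exact absurd (weight_le_of_finite H) (not_le.2 hlt)
  have h1 : 𝔠 ≤ #H := hINF H hH hinf
  have h2 := weight_image_le hTB hNB hWU hWL hG f hf hs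
  rw [hw] at h2
  have h3 : weight H ≤ Order.succ 𝔠 :=
    h2.trans (max_le le_rfl (aleph0_le_continuum.trans (Order.le_succ _)))
  have h4 : #H ≤ 𝔠 := Order.lt_succ_iff.1 (hlt.trans_le h3)
  have h5 := weight_le_ch hTB hNB hWU H hH
  have h6 : 𝔠 < #(Ch H) := by
    by_contra h
    push Not at h
    have := h5.trans (max_le h aleph0_le_continuum)
    exact absurd (this.trans h1) (not_le.2 hlt)
  refine hFAM H (Set.range fun χ : Ch H => χ.1) h4 ?_ ?_
  · rw [mk_range_eq (fun χ : Ch H => χ.1) (fun _ _ h => Subtype.ext h)]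
    exact h6
  · intro S hS
    obtain ⟨C, hSC, hC⟩ := t_CLO H hH S hS
    haveI : CompactSpace C := isCompact_iff_compactSpace.1 hC
    have hle : #(Set.range fun φ : (Set.range fun χ : Ch H => χ.1) => fun s : S => φ.1 s.1) ≤
        #(Ch C) := by
      have hsub : (Set.range fun φ : (Set.range fun χ : Ch H => χ.1) => fun s : S => φ.1 s.1) ⊆
          Set.range (fun ψ : Ch C => fun s : S => ψ.1 ⟨s.1, hSC s.2⟩) := by
        rintro _ ⟨⟨_, χ, rfl⟩, rfl⟩
        refine ⟨⟨fun c => χ.1 c.1, χ.2.1.comp continuous_subtype_val, fun x y => ?_⟩, rfl⟩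
        exact χ.2.2 x.1 y.1
      exact (mk_le_mk_of_subset hsub).trans mk_range_le
    have hpow : (2 : Cardinal.{0}) ^ #(Ch C) ≤ 𝔠 := by
      rcases le_or_gt #(Ch C) ℵ₀ with h | h
      · rw [← two_power_aleph0]
        exact power_le_power_left two_ne_zero h
      · have hPW : ∀ x : C, x ≠ 0 → ∃ χ : Ch C, χ.1 x ≠ 1 := fun x hx => t_PW C x hx
        have := hTREE C hPW (by
          intro Y hY
          have hb := omegaBounded_of_compact C
          have e1 := hWU C Y (hSEP C Y hY)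
          have e2 := ch_le_weight hTB hWL C hb
          exact e2.trans (max_le e1 (le_max_right _ _))) h
        refine this.trans ((mk_subtype_le _).trans h4)
    exact (power_le_power_left two_ne_zero hle).trans hpow

/-- Kurepa's hypothesis: there are more than `ℵ₁` subsets of `ω₁` with only countably many traces
on every countable set -/
def KurepaHypothesis : Prop :=
  ∃ 𝒜 : Set (Set (ℵ₁ : Cardinal.{0}).ord.ToType), ℵ₁ < #𝒜 ∧
    ∀ S : Set (ℵ₁ : Cardinal.{0}).ord.ToType, S.Countable → (traces 𝒜 S).Countable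

theorem transport {X Y : Type} (e : X ≃ Y) (𝒜 : Set (Set X))
    (h : ∀ S : Set X, S.Countable → (traces 𝒜 S).Countable) :
    ∃ ℬ : Set (Set Y), #ℬ = #𝒜 ∧ ∀ S : Set Y, S.Countable → (traces ℬ S).Countable := by
  refine ⟨(fun A => e '' A) '' 𝒜, ?_, ?_⟩
  · exact mk_image_eq (Set.image_injective.2 e.injective)
  · intro S hS
    have h1 := h (e ⁻¹' S) (hS.preimage e.injective)
    refine (h1.image (fun T => e '' T)).mono ?_
    rintro T ⟨_, ⟨A, hA, rfl⟩, rfl⟩
    refine ⟨A ∩ e ⁻¹' S, ⟨A, hA, rfl⟩, ?_⟩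
    exact Set.image_inter_preimage e A S

theorem final (hTREE : S_TREE) (hNB : S_NB) (hWU : S_WU) (hWL : S_WL) (hSEP : S_SEP)
    (hTB : S_TB) (hINF : S_INF) (hKUR : S_KUR) (hFAM : S_FAM) :
    sigma ∈ BadWeights ∧ Order.succ 𝔠 ≤ sigma ∧ sigma ≤ Order.succ (2 ^ 𝔠) ∧
    (sigma = Order.succ 𝔠 ↔ KurepaFamily) ∧
    (𝔠 < 2 ^ (ℵ₁ : Cardinal.{0}) → (sigma = Order.succ 𝔠 ↔
      ∃ 𝒜 : Set (Set (ℕ → Bool)), 𝔠 < #𝒜 ∧
        ∀ S : Set (ℕ → Bool), S.Countable → (traces 𝒜 S).Countable)) ∧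
    (𝔠 = (ℵ₁ : Cardinal.{0}) → (2 : Cardinal.{0}) ^ (ℵ₁ : Cardinal.{0}) = Order.succ ℵ₁ →
      (KurepaHypothesis → sigma = Order.succ ℵ₁) ∧
      (¬ KurepaHypothesis → sigma = Order.succ (Order.succ ℵ₁))) := by
  have hmem := upper_mem hKUR
  have hsig : sigma ∈ BadWeights := csInf_mem ⟨_, hmem⟩
  have hlow : Order.succ 𝔠 ≤ sigma :=
    Order.succ_le_of_lt (lower hTB hNB hWU hWL hINF sigma hsig)
  have hup : sigma ≤ Order.succ (2 ^ 𝔠) := csInf_le' hmem
  have hiff : sigma = Order.succ 𝔠 ↔ KurepaFamily := by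
    constructor
    · intro h
      rw [h] at hsig
      exact kurepa_of hTREE hNB hWU hWL hSEP hTB hINF hFAM hsig
    · intro h
      exact le_antisymm (csInf_le' (kurepa_mem hKUR h)) hlow
  have hiff2 : 𝔠 < 2 ^ (ℵ₁ : Cardinal.{0}) → (sigma = Order.succ 𝔠 ↔
      ∃ 𝒜 : Set (Set (ℕ → Bool)), 𝔠 < #𝒜 ∧
        ∀ S : Set (ℕ → Bool), S.Countable → (traces 𝒜 S).Countable) := by
    intro hc
    rw [hiff]
    constructor
    · rintro ⟨𝒜, h1, h2⟩
      refine ⟨𝒜, h1, fun S hS => ?_⟩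
      rw [← le_aleph0_iff_set_countable]
      by_contra hn
      push Not at hn
      have h3 : (ℵ₁ : Cardinal.{0}) ≤ #(traces 𝒜 S) := by
        rw [← succ_aleph0]
        exact Order.succ_le_of_lt hn
      have h4 := (power_le_power_left (two_ne_zero (α := Cardinal.{0})) h3).trans (h2 S hS)
      exact absurd h4 (not_le.2 hc)
    · rintro ⟨𝒜, h1, h2⟩
      refine ⟨𝒜, h1, fun S hS => ?_⟩
      rw [← two_power_aleph0]
      exact power_le_power_left two_ne_zero (le_aleph0_iff_set_countable.2 (h2 S hS))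
  refine ⟨hsig, hlow, hup, hiff, hiff2, ?_⟩
  intro hCH hG
  have hc : 𝔠 < 2 ^ (ℵ₁ : Cardinal.{0}) := by
    rw [hCH]
    exact cantor _
  have heq : #(ℕ → Bool) = #((ℵ₁ : Cardinal.{0}).ord.ToType) := by
    rw [mk_ord_toType, ← hCH]
    simp
  obtain ⟨e⟩ := Cardinal.eq.1 heq
  have hK : KurepaHypothesis ↔ sigma = Order.succ ℵ₁ := by
    rw [← hCH, hiff2 hc]
    constructor
    · rintro ⟨𝒜, h1, h2⟩
      obtain ⟨ℬ, h3, h4⟩ := transport e.symm 𝒜 h2
      exact ⟨ℬ, by rw [h3, hCH]; exact h1, h4⟩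
    · rintro ⟨𝒜, h1, h2⟩
      obtain ⟨ℬ, h3, h4⟩ := transport e 𝒜 h2
      exact ⟨ℬ, by rw [h3, ← hCH]; exact h1, h4⟩
  refine ⟨hK.1, fun hn => ?_⟩
  have h1 : sigma ≠ Order.succ ℵ₁ := fun h => hn (hK.2 h)
  rw [hCH] at hlow hup
  rw [hG] at hup
  apply le_antisymm hup
  exact Order.succ_le_of_lt (lt_of_le_of_ne hlow h1.symm)

end Pool.Agent.N841.WS
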